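import Pool.Agent.Q283.GA.Dens

/-!
# Counting the primary primes of the Gaussian integers by Frobenius elements

`z` is primary if `z = 1` modulo `2 + 2i`.  This is `Q283/GA/Count.lean` and the first half of
`Q283/GA/Dens.lean` with `2 + 2i` in place of `4`, so that all the primes prime to `2` occur.
-/

set_option autoImplicit false
set_option linter.unusedSectionVars false
set_option linter.style.haveILetI false

namespace Pool.Agent.H93.QT

open NumberField Filter Topology Finset Pool.Agent.W401.Cheb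
open Pool.Agent.Y715.Gi (ev ev_apply)
open Pool.Agent.Y715.Rec (norm_eq unit_cases)
open Q283.GA (fin_nr card_above not_both ker_iff im_z norm_nn ii ii_unit)

/-- `z = 1` modulo `2 + 2i` -/
def Prm (z : GaussianInt) : Prop := z.im % 2 = 0 ∧ (z.re + z.im) % 4 = 1

/-- primary primes -/
structure Pp (π : GaussianInt) : Prop where
  prime : Prime π
  prm : Prm π

/-- a primary unit is one -/
theorem unit_one {u : GaussianInt} (hu : IsUnit u) (h : Prm u) : u = 1 := by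
  obtain ⟨h0, h1⟩ := h
  rcases unit_cases hu with ⟨h2, h3 | h3⟩ | ⟨h2, h3 | h3⟩
  · omega
  · omega
  · ext
    · rw [h3]; rfl
    · rw [h2]; rfl
  · omega

theorem pp_eq_of_dvd {π ρ : GaussianInt} (h : Pp π) (h' : Pp ρ) (hd : ρ ∣ π) : ρ = π := by
  obtain ⟨u, hu⟩ := (h'.prime.dvd_prime_iff_associated h.prime).1 hd
  have hre := congrArg Zsqrtd.re hu
  have him := congrArg Zsqrtd.im hu
  rw [Zsqrtd.re_mul] at hre
  rw [Zsqrtd.im_mul] at him
  obtain ⟨a1, a2⟩ := h.prm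
  obtain ⟨b1, b2⟩ := h'.prm
  rcases unit_cases u.isUnit with ⟨h2, h3 | h3⟩ | ⟨h2, h3 | h3⟩
  · rw [h2, h3] at hre him; omega
  · rw [h2, h3] at hre him; omega
  · rw [h2, h3] at hre him
    ext <;> omega
  · rw [h2, h3] at hre him; omega

/-- the number of the primary primes of norm `n` with the property `T` -/
noncomputable def FT (T : GaussianInt → Prop) (n : ℕ) : ℕ :=
  Nat.card {π : GaussianInt // Pp π ∧ π.norm = n ∧ T π}

/-- the number of the primary primes of norm at most `X` with the property `T` -/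
noncomputable def NT (T : GaussianInt → Prop) (X : ℕ) : ℕ :=
  {π : GaussianInt | Pp π ∧ π.norm ≤ X ∧ T π}.ncard

section
variable {L : Type} [Field L] [NumberField L] [IsGalois ℚ L] {Z : 𝓞 L} (hZ : Z ^ 2 = -1)

open scoped Classical in
theorem sum_eq (C : Set Gal(L/ℚ)) (T : GaussianInt → Prop) {p : ℕ} [hp : Fact p.Prime]
    (h : TorAt L p) (h2 : p ≠ 2)
    (hT : ∀ (φ : 𝓞 L →+* AlgebraicClosure (ZMod p)) (g : Gal(L/ℚ)), HasFrob p φ g →
      (g ∈ C ↔ ∃ π, Pp π ∧ π.norm = p ∧ φ (ev Z hZ π) = 0 ∧ T π)) :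
    2 * ∑ g ∈ C.toFinset, xp L g p = FT T p * Nat.card Gal(L/ℚ) := by
  have hfin := finite_hom h
  have hfin2 : Finite {π : GaussianInt // Pp π ∧ π.norm = p ∧ T π} := by
    refine Set.Finite.subset (fin_nr p) ?_
    rintro π ⟨-, h1, -⟩
    exact h1.le
  haveI := Fintype.ofFinite {π : GaussianInt // Pp π ∧ π.norm = p ∧ T π}
  have e1 : ∑ g ∈ C.toFinset, xp L g p =
      Nat.card {φ : 𝓞 L →+* AlgebraicClosure (ZMod p) //
        ∃ π, Pp π ∧ π.norm = p ∧ φ (ev Z hZ π) = 0 ∧ T π} := by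
    have e2 : (Σ g : C.toFinset, {φ : 𝓞 L →+* AlgebraicClosure (ZMod p) // HasFrob p φ g.1}) ≃
        {φ : 𝓞 L →+* AlgebraicClosure (ZMod p) //
          ∃ π, Pp π ∧ π.norm = p ∧ φ (ev Z hZ π) = 0 ∧ T π} := by
      refine Equiv.ofBijective (fun x => ⟨x.2.1, (hT _ _ x.2.2).1 (Set.mem_toFinset.1 x.1.2)⟩)
        ⟨?_, ?_⟩
      · rintro ⟨⟨g, hg⟩, φ, hφ⟩ ⟨⟨g', hg'⟩, φ', hφ'⟩ he
        simp only [Subtype.mk.injEq] at he
        subst he
        have : g = g' := frob_unique h hφ hφ'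
        subst this
        rfl
      · rintro ⟨φ, hφ⟩
        obtain ⟨g, hg⟩ := exists_frob h φ
        exact ⟨⟨⟨g, Set.mem_toFinset.2 ((hT _ _ hg).2 hφ)⟩, φ, hg⟩, rfl⟩
    rw [← Nat.card_congr e2, Nat.card_sigma, ← Finset.sum_coe_sort]
    refine Finset.sum_congr rfl fun g _ => ?_
    unfold xp
    rw [dif_pos hp.out]
  have e3 : Nat.card {φ : 𝓞 L →+* AlgebraicClosure (ZMod p) //
      ∃ π, Pp π ∧ π.norm = p ∧ φ (ev Z hZ π) = 0 ∧ T π} =
      ∑ π : {π : GaussianInt // Pp π ∧ π.norm = p ∧ T π},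
        Nat.card {φ : 𝓞 L →+* AlgebraicClosure (ZMod p) // φ (ev Z hZ π.1) = 0} := by
    rw [← Nat.card_sigma]
    symm
    refine Nat.card_congr (Equiv.ofBijective
      (fun x => ⟨x.2.1, x.1.1, x.1.2.1, x.1.2.2.1, x.2.2, x.1.2.2.2⟩) ⟨?_, ?_⟩)
    · rintro ⟨⟨π, hπ⟩, φ, hφ⟩ ⟨⟨π', hπ'⟩, φ', hφ'⟩ he
      simp only [Subtype.mk.injEq] at he
      subst he
      have h5 : π = π' := pp_eq_of_dvd hπ'.1 hπ.1 ((ker_iff hZ hπ.1.prime hφ π').1 hφ')
      subst h5
      rfl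
    · rintro ⟨φ, π, h1, h2, h3, h4⟩
      exact ⟨⟨⟨π, h1, h2, h4⟩, φ, h3⟩, rfl⟩
  rw [e1, e3, Finset.mul_sum]
  rw [Finset.sum_congr rfl fun π _ => card_above hZ h h2 π.2.2.1, Finset.sum_const,
    Finset.card_univ, ← Nat.card_eq_fintype_card, smul_eq_mul]
  rfl

open scoped Classical in
/-- **Density of a Frobenius set, for primes of degree one of the Gaussian integers.** -/
theorem dens_one (C : Set Gal(L/ℚ)) (T : GaussianInt → Prop) (D₀ : ℕ) (hD₀ : 0 < D₀)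
    (hT : ∀ (p : ℕ) [Fact p.Prime], ¬ p ∣ D₀ →
      ∀ (φ : 𝓞 L →+* AlgebraicClosure (ZMod p)) (g : Gal(L/ℚ)), HasFrob p φ g →
      (g ∈ C ↔ ∃ π, Pp π ∧ π.norm = p ∧ φ (ev Z hZ π) = 0 ∧ T π)) :
    Tendsto (M fun p => (FT T p : ℝ)) atTop
      (𝓝 (2 * (Nat.card C : ℝ) / (Nat.card Gal(L/ℚ) : ℝ))) := by
  obtain ⟨D₁, hD₁, htor⟩ := torsor L
  have hG : (Nat.card Gal(L/ℚ) : ℝ) ≠ 0 := by
    have := Nat.card_pos (α := Gal(L/ℚ))
    positivity
  have key : ∀ p : ℕ, p.Prime → ¬ p ∣ 2 * D₀ * D₁ → (FT T p : ℝ) =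
      (2 * (Nat.card Gal(L/ℚ) : ℝ)⁻¹) * ∑ g ∈ C.toFinset, (xp L g p : ℝ) := by
    intro p hp hpD
    haveI : Fact p.Prime := ⟨hp⟩
    have h0 : ¬ p ∣ D₀ := fun h => hpD ((h.mul_left _).mul_right _)
    have h1 : ¬ p ∣ D₁ := fun h => hpD (h.mul_left _)
    have h2 : p ≠ 2 := by
      rintro rfl
      exact hpD (((by norm_num : 2 ∣ 2).mul_right _).mul_right _)
    have h4 := sum_eq hZ C T (htor p h1) h2 (hT p h0)
    have h5 : 2 * ∑ g ∈ C.toFinset, (xp L g p : ℝ) = (FT T p : ℝ) * (Nat.card Gal(L/ℚ) : ℝ) := by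
      exact_mod_cast h4
    field_simp
    linear_combination -h5
  refine M_congr (Nat.mul_pos (Nat.mul_pos (by norm_num) hD₀) hD₁) key ?_
  have h4 : ∀ N, M (fun p => (2 * (Nat.card Gal(L/ℚ) : ℝ)⁻¹) * ∑ g ∈ C.toFinset, (xp L g p : ℝ)) N
      = (2 * (Nat.card Gal(L/ℚ) : ℝ)⁻¹) * ∑ g ∈ C.toFinset, M (fun p => (xp L g p : ℝ)) N := by
    intro N
    rw [M_smul, M_sum]
  have h5 : Tendsto (fun N => (2 * (Nat.card Gal(L/ℚ) : ℝ)⁻¹) *
      ∑ g ∈ C.toFinset, M (fun p => (xp L g p : ℝ)) N) atTop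
      (𝓝 ((2 * (Nat.card Gal(L/ℚ) : ℝ)⁻¹) * ∑ _g ∈ C.toFinset, 1)) :=
    (tendsto_finsetSum _ fun g _ => chebotarev L g).const_mul _
  have h6 : (2 * (Nat.card Gal(L/ℚ) : ℝ)⁻¹) * ∑ _g ∈ C.toFinset, (1 : ℝ)
      = 2 * (Nat.card C : ℝ) / (Nat.card Gal(L/ℚ) : ℝ) := by
    rw [Finset.sum_const, nsmul_eq_mul, mul_one, Set.toFinset_card, ← Nat.card_eq_fintype_card]
    field_simp
  rw [h6] at h5
  exact h5.congr fun N => (h4 N).symm

end

/-- a primary prime whose norm is not a prime number is a rational integer -/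
theorem inert_form {π : GaussianInt} (h : Pp π) (hn : ¬ (π.norm).natAbs.Prime) : π.im = 0 := by
  set n := (π.norm).natAbs with hnd
  have hnr : (n : ℤ) = π.norm := Int.natAbs_of_nonneg (norm_nn π)
  have hn0 : n ≠ 0 := by
    intro h0
    apply h.prime.ne_zero
    rw [← GaussianInt.norm_eq_zero, ← hnr, h0]
    rfl
  have hn1 : n ≠ 1 := by
    intro h0
    exact h.prime.not_isUnit (Zsqrtd.norm_eq_one_iff.1 h0)
  obtain ⟨r, hr, c, hc⟩ := Pool.Agent.Y715.Rec.exists_rat h.prime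
  have h2 : n * (c.norm).natAbs = r ^ 2 := by
    rw [hnd, ← Int.natAbs_mul, ← Zsqrtd.norm_mul, ← hc, Zsqrtd.norm_natCast, Int.natAbs_mul,
      Int.natAbs_natCast, pow_two]
  obtain ⟨i, hi, hi2⟩ := (Nat.dvd_prime_pow hr).1 (Dvd.intro _ h2)
  have hi2' : i = 2 := by
    interval_cases i
    · exact absurd (by rw [hi2, pow_zero]) hn1
    · rw [pow_one] at hi2
      rw [hi2] at hn
      exact absurd hr hn
    · rfl
  rw [hi2'] at hi2
  have hcu : IsUnit c := by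
    apply Zsqrtd.norm_eq_one_iff.1
    rw [hi2] at h2
    have hr0 : 0 < r ^ 2 := by positivity [hr.pos]
    exact Nat.eq_of_mul_eq_mul_left hr0 (by rw [h2, mul_one])
  have hre := congrArg Zsqrtd.re hc
  have him := congrArg Zsqrtd.im hc
  rw [Zsqrtd.re_mul] at hre
  rw [Zsqrtd.im_mul] at him
  simp only [Zsqrtd.re_natCast, Zsqrtd.im_natCast] at hre him
  obtain ⟨h4, h5⟩ := h.prm
  rcases unit_cases hcu with ⟨h6, h7 | h7⟩ | ⟨h6, h7 | h7⟩ <;> rw [h6, h7] at hre him <;> omega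

theorem few_inert (T : GaussianInt → Prop) (X : ℕ) :
    {π : GaussianInt | Pp π ∧ π.norm ≤ X ∧ T π ∧ ¬ (π.norm).natAbs.Prime}.ncard
      ≤ 2 * X.sqrt + 1 := by
  have h1 : {π : GaussianInt | Pp π ∧ π.norm ≤ X ∧ T π ∧ ¬ (π.norm).natAbs.Prime} ⊆
      (((Finset.Icc (-(X.sqrt : ℤ)) X.sqrt).image fun n : ℤ => (⟨n, 0⟩ : GaussianInt) :
        Finset GaussianInt) : Set GaussianInt) := by
    rintro π ⟨h1, h2, -, h4⟩
    have h5 := inert_form h1 h4
    rw [Finset.mem_coe, Finset.mem_image]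
    refine ⟨π.re, ?_, ?_⟩
    · rw [norm_eq, h5] at h2
      have h6 : π.re.natAbs ^ 2 ≤ X := by
        have : ((π.re.natAbs ^ 2 : ℕ) : ℤ) ≤ X := by
          push_cast
          rw [sq_abs]
          linarith
        exact_mod_cast this
      have h7 : π.re.natAbs ≤ X.sqrt := Nat.le_sqrt'.2 h6
      rw [Finset.mem_Icc]
      omega
    · ext
      · rfl
      · exact h5.symm
  have h2 := Set.ncard_le_ncard h1 (Finset.finite_toSet _)
  rw [Set.ncard_coe_finset] at h2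
  refine h2.trans (Finset.card_image_le.trans ?_)
  rw [Int.card_Icc]
  omega

theorem NT_split (T : GaussianInt → Prop) (X : ℕ) :
    NT T X = ∑ p ∈ pr X, FT T p +
      {π : GaussianInt | Pp π ∧ π.norm ≤ X ∧ T π ∧ ¬ (π.norm).natAbs.Prime}.ncard := by
  classical
  have hf := fin_nr X
  set F : Finset GaussianInt := hf.toFinset.filter fun π => Pp π ∧ T π with hF
  have hmem : ∀ π, π ∈ F ↔ Pp π ∧ π.norm ≤ X ∧ T π := by
    intro π
    rw [hF, Finset.mem_filter, Set.Finite.mem_toFinset]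
    constructor
    · rintro ⟨a, b, c⟩; exact ⟨b, a, c⟩
    · rintro ⟨b, a, c⟩; exact ⟨a, b, c⟩
  have e1 : NT T X = F.card := by
    unfold NT
    rw [← Set.ncard_coe_finset]
    congr 1
    ext π
    rw [Finset.mem_coe, hmem]
    rfl
  have e2 : {π : GaussianInt | Pp π ∧ π.norm ≤ X ∧ T π ∧ ¬ (π.norm).natAbs.Prime}.ncard =
      (F.filter fun π => ¬ (π.norm).natAbs.Prime).card := by
    rw [← Set.ncard_coe_finset]
    congr 1
    ext π
    rw [Finset.mem_coe, Finset.mem_filter, hmem]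
    constructor
    · rintro ⟨a, b, c, d⟩; exact ⟨⟨a, b, c⟩, d⟩
    · rintro ⟨⟨a, b, c⟩, d⟩; exact ⟨a, b, c, d⟩
  have e3 : (F.filter fun π => (π.norm).natAbs.Prime).card = ∑ p ∈ pr X, FT T p := by
    rw [Finset.card_eq_sum_card_fiberwise (f := fun π => (π.norm).natAbs) (t := pr X)]
    · refine Finset.sum_congr rfl fun p hp => ?_
      unfold FT
      rw [mem_pr] at hp
      refine (Nat.subtype_card _ fun π => ?_).symm
      rw [Finset.mem_filter, Finset.mem_filter, hmem]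
      have h2 := norm_nn π
      constructor
      · rintro ⟨⟨⟨a, b, c⟩, d⟩, e⟩
        exact ⟨a, by omega, c⟩
      · rintro ⟨a, b, c⟩
        have h5 : (π.norm).natAbs = p := by omega
        exact ⟨⟨⟨a, by omega, c⟩, by rw [h5]; exact hp.2⟩, h5⟩
    · intro π hπ
      rw [Finset.mem_coe, Finset.mem_filter, hmem] at hπ
      rw [Finset.mem_coe, mem_pr]
      refine ⟨?_, hπ.2⟩
      have := hπ.1.2.1
      have h2 := norm_nn π
      show (π.norm).natAbs ≤ X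
      omega
  rw [e1, e2, ← e3, Finset.card_filter_add_card_filter_not]

/-- the mean value of the primes of degree one determines the number of all primes -/
theorem NT_tendsto {T : GaussianInt → Prop} {c : ℝ}
    (h : Tendsto (M fun p => (FT T p : ℝ)) atTop (𝓝 c)) :
    Tendsto (fun X : ℕ => (NT T X : ℝ) / (Nat.primeCounting X : ℝ)) atTop (𝓝 c) := by
  have h1 : Tendsto (fun X : ℕ =>
      (({π : GaussianInt | Pp π ∧ π.norm ≤ X ∧ T π ∧ ¬ (π.norm).natAbs.Prime}.ncard : ℕ) : ℝ) /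
        (Nat.primeCounting X : ℝ)) atTop (𝓝 0) := by
    refine squeeze_zero (fun X => by positivity) (fun X => ?_) Q283.TC.sqrt_div_pc
    refine div_le_div_of_nonneg_right ?_ (Nat.cast_nonneg _)
    exact_mod_cast few_inert T X
  have h2 := h.add h1
  rw [add_zero] at h2
  refine h2.congr fun X => ?_
  rw [NT_split]
  unfold M
  push_cast
  rw [add_div]

/-- a primary generator -/
theorem exists_prm {ρ : GaussianInt} (hn : ρ.norm % 2 = 1) :
    ∃ u : GaussianInt, IsUnit u ∧ Prm (u * ρ) := by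
  rw [norm_eq] at hn
  have hsq : ∀ x : ℤ, x ^ 2 % 2 = x % 2 := by
    intro x
    rcases Int.emod_two_eq_zero_or_one x with h | h
    · rw [pow_two, Int.mul_emod, h]; rfl
    · rw [pow_two, Int.mul_emod, h]; rfl
  have h1 := hsq ρ.re
  have h2 := hsq ρ.im
  have key : (ρ.im % 2 = 0 ∧ (ρ.re + ρ.im) % 4 = 1) ∨ (ρ.im % 2 = 0 ∧ (-ρ.re - ρ.im) % 4 = 1) ∨
      (ρ.re % 2 = 0 ∧ (ρ.im - ρ.re) % 4 = 1) ∨ (ρ.re % 2 = 0 ∧ (ρ.re - ρ.im) % 4 = 1) := by
    have h5 : (ρ.re + ρ.im) % 2 = 1 := by omega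
    omega
  rcases key with ⟨h3, h4⟩ | ⟨h3, h4⟩ | ⟨h3, h4⟩ | ⟨h3, h4⟩
  · refine ⟨1, isUnit_one, ?_⟩
    rw [one_mul]
    exact ⟨h3, h4⟩
  · refine ⟨-1, isUnit_one.neg, ?_⟩
    rw [neg_one_mul]
    unfold Prm
    rw [Zsqrtd.re_neg, Zsqrtd.im_neg]
    omega
  · refine ⟨-ii, ii_unit.neg, ?_⟩
    unfold Prm
    rw [Zsqrtd.re_mul, Zsqrtd.im_mul]
    have e1 : (-ii).re = 0 := rfl
    have e2 : (-ii).im = -1 := rfl
    rw [e1, e2]
    omega
  · refine ⟨ii, ii_unit, ?_⟩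
    unfold Prm
    rw [Zsqrtd.re_mul, Zsqrtd.im_mul]
    have e1 : (ii).re = 0 := rfl
    have e2 : (ii).im = 1 := rfl
    rw [e1, e2]
    omega

theorem exists_above {L : Type} [Field L] [NumberField L] [IsGalois ℚ L] {Z : 𝓞 L}
    (hZ : Z ^ 2 = -1) {p : ℕ} [hp : Fact p.Prime] {φ : 𝓞 L →+* AlgebraicClosure (ZMod p)}
    (hp4 : p % 4 = 1) : ∃ π, Pp π ∧ π.norm = p ∧ φ (ev Z hZ π) = 0 := by
  set I : Ideal GaussianInt := RingHom.ker (φ.comp (ev Z hZ)) with hI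
  have hmem : ∀ x, x ∈ I ↔ φ (ev Z hZ x) = 0 := fun x => Iff.rfl
  have hpI : ((p : ℕ) : GaussianInt) ∈ I := by
    rw [hmem, map_natCast, map_natCast]
    exact CharP.cast_eq_zero _ p
  have hp0 : ((p : ℕ) : GaussianInt) ≠ 0 := by
    exact_mod_cast hp.out.ne_zero
  have hIb : I ≠ ⊥ := by
    intro h
    rw [h] at hpI
    exact hp0 (Ideal.mem_bot.1 hpI)
  haveI : I.IsPrime := RingHom.ker_isPrime _
  have hpr := Submodule.IsPrincipal.prime_generator_of_isPrime I hIb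
  set ρ := Submodule.IsPrincipal.generator I with hρ
  have hρI : φ (ev Z hZ ρ) = 0 := (hmem ρ).1 (Submodule.IsPrincipal.generator_mem I)
  have ht := im_z φ hZ
  obtain ⟨c, hc⟩ := (ker_iff hZ hpr hρI _).1 ((hmem _).1 hpI)
  have h2 : (ρ.norm).natAbs * (c.norm).natAbs = p ^ 2 := by
    rw [← Int.natAbs_mul, ← Zsqrtd.norm_mul, ← hc, Zsqrtd.norm_natCast, Int.natAbs_mul,
      Int.natAbs_natCast, pow_two]
  have hnn := norm_nn ρ
  have hnρ : ρ.norm = p := by
    obtain ⟨i, hi, hi2⟩ := (Nat.dvd_prime_pow hp.out).1 (Dvd.intro _ h2)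
    interval_cases i
    · exfalso
      rw [pow_zero] at hi2
      exact hpr.not_isUnit (Zsqrtd.norm_eq_one_iff.1 hi2)
    · rw [pow_one] at hi2
      omega
    · exfalso
      have hcu : IsUnit c := by
        apply Zsqrtd.norm_eq_one_iff.1
        rw [hi2] at h2
        have hr0 : 0 < p ^ 2 := by positivity [hp.out.pos]
        exact Nat.eq_of_mul_eq_mul_left hr0 (by rw [h2, mul_one])
      have hpd : ((p : ℕ) : GaussianInt) ∣ ρ := by
        rw [hc]
        obtain ⟨u, rfl⟩ := hcu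
        exact ⟨(u⁻¹ : GaussianIntˣ), by rw [mul_assoc, Units.mul_inv, mul_one]⟩
      have hfix : (φ Z) ^ p = φ Z := by
        have hz4 : (φ Z) ^ 4 = 1 := by
          have : (φ Z) ^ 4 = ((φ Z) ^ 2) ^ 2 := by ring
          rw [this, ht]; ring
        obtain ⟨m, hm⟩ : ∃ m, 4 * m + 1 = p := ⟨p / 4, by omega⟩
        have h5 : (φ Z) ^ (4 * m + 1) = φ Z := by
          rw [pow_add, pow_mul, hz4, one_pow, one_mul, pow_one]
        rwa [hm] at h5
      obtain ⟨z, hz⟩ := (Q283.TW.fixed_iff _).1 hfix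
      have h6 : ρ ∣ ii - ((z.val : ℤ) : GaussianInt) := by
        rw [← ker_iff hZ hpr hρI, map_sub, map_sub, map_intCast, map_intCast, sub_eq_zero]
        have e1 : ev Z hZ ii = Z := by
          rw [ev_apply]
          have a1 : ii.re = 0 := rfl
          have a2 : ii.im = 1 := rfl
          rw [a1, a2]
          push_cast
          ring
        rw [e1, ← hz, Int.cast_natCast, ← map_natCast (algebraMap (ZMod p) (AlgebraicClosure (ZMod p))),
          ZMod.natCast_zmod_val]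
      obtain ⟨d, hd⟩ := hpd.trans h6
      have h9 := congrArg Zsqrtd.im hd
      rw [Zsqrtd.im_sub, Zsqrtd.im_intCast, Zsqrtd.im_mul, Zsqrtd.re_natCast,
        Zsqrtd.im_natCast] at h9
      have a2 : ii.im = 1 := rfl
      rw [a2] at h9
      have h10 : (p : ℤ) ∣ 1 := ⟨d.im, by linarith⟩
      have h11 : p ∣ 1 := by exact_mod_cast h10
      exact hp.out.one_lt.ne' (Nat.dvd_one.1 h11)
  obtain ⟨u, hu, hu4⟩ := exists_prm (ρ := ρ) (by rw [hnρ]; omega)
  refine ⟨u * ρ, ⟨?_, hu4⟩, ?_, ?_⟩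
  · obtain ⟨v, rfl⟩ := hu
    exact (associated_unit_mul_left ρ (v : GaussianInt) v.isUnit).symm.prime hpr
  · rw [Zsqrtd.norm_mul, (Zsqrtd.norm_eq_one_iff' (by norm_num) u).2 hu, one_mul, hnρ]
  · rw [map_mul, map_mul, hρI, mul_zero]

end Pool.Agent.H93.QT
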