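import Pool.Agent.H93.QT.Den
import Pool.Agent.H20PT.LinF
import Pool.Agent.Y699.Qk

/-!
# The criterion for a twist by one more prime
-/

set_option autoImplicit false
set_option linter.unusedSectionVars false

namespace Pool.Agent.H93.QT

open Finset
open Pool.Agent.Y699 (PP PS PD qr mem_PD qr_rec qr_mul qr_cases qr_zero_iff Good4 PD_one)
open Pool.Agent.H304R2.EC.A1 (prim prim_mul prim_cancel prim_one prim_ne_zero)
open Pool.Agent.H20PT.FF (Ns)
open scoped Classical

/-- `1` if `a` is not a square modulo `π`, and `0` if it is -/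
noncomputable def nsq (π a : GaussianInt) : ZMod 2 := if ∃ b, π ∣ a - b ^ 2 then 0 else 1

theorem nsq_zero {π a : GaussianInt} (h : ¬ π ∣ a) : nsq π a = 0 ↔ qr π a = 1 := by
  unfold nsq qr
  rw [if_neg h]
  by_cases hc : ∃ b, π ∣ a - b ^ 2
  · rw [if_pos hc, if_pos hc]; simp
  · rw [if_neg hc, if_neg hc]
    constructor
    · intro h1; exact absurd h1 (by decide)
    · intro h1; exact absurd h1 (by decide)

theorem nsq_one {π a : GaussianInt} (h : ¬ π ∣ a) : nsq π a = 1 ↔ qr π a = -1 := by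
  unfold nsq qr
  rw [if_neg h]
  by_cases hc : ∃ b, π ∣ a - b ^ 2
  · rw [if_pos hc, if_pos hc]
    constructor
    · intro h1; exact absurd h1 (by decide)
    · intro h1; exact absurd h1 (by decide)
  · rw [if_neg hc, if_neg hc]; simp

theorem nsq_eq_of {π a π' a' : GaussianInt} (h : ¬ π ∣ a) (h' : ¬ π' ∣ a')
    (he : qr π a = qr π' a') : nsq π a = nsq π' a' := by
  rcases qr_cases h with h1 | h1
  · rw [(nsq_zero h).2 h1, (nsq_zero h').2 (he ▸ h1)]
  · rw [(nsq_one h).2 h1, (nsq_one h').2 (he ▸ h1)]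

theorem nsq_rec {π ρ : GaussianInt} (h1 : PP π) (h2 : PP ρ) (hne : π ≠ ρ) :
    nsq π ρ = nsq ρ π :=
  nsq_eq_of (fun h => hne (h1.eq_of_dvd h2 h)) (fun h => hne (h2.eq_of_dvd h1 h).symm)
    (qr_rec h1 h2)

theorem nsq_mul {π a b : GaussianInt} (h : PP π) (ha : ¬ π ∣ a) (hb : ¬ π ∣ b) :
    nsq π (a * b) = nsq π a + nsq π b := by
  have hab : ¬ π ∣ a * b := fun h' => (h.pr.dvd_or_dvd h').elim ha hb
  have hm := qr_mul h a b
  rcases qr_cases ha with h1 | h1 <;> rcases qr_cases hb with h2 | h2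
  · rw [(nsq_zero ha).2 h1, (nsq_zero hb).2 h2, (nsq_zero hab).2 (by rw [hm, h1, h2]; norm_num)]
    rfl
  · rw [(nsq_zero ha).2 h1, (nsq_one hb).2 h2, (nsq_one hab).2 (by rw [hm, h1, h2]; norm_num)]
    rfl
  · rw [(nsq_one ha).2 h1, (nsq_zero hb).2 h2, (nsq_one hab).2 (by rw [hm, h1, h2]; norm_num)]
    rfl
  · rw [(nsq_one ha).2 h1, (nsq_one hb).2 h2, (nsq_zero hab).2 (by rw [hm, h1, h2]; norm_num)]
    decide

theorem nsq_self_one {π : GaussianInt} : nsq π 1 = 0 := by
  unfold nsq
  rw [if_pos ⟨1, by simp⟩]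

theorem nsq_prod {π : GaussianInt} (h : PP π) (S : Finset GaussianInt) (hS : ∀ r ∈ S, ¬ π ∣ r) :
    nsq π (∏ r ∈ S, r) = ∑ r ∈ S, nsq π r := by
  induction S using Finset.induction_on with
  | empty => rw [Finset.prod_empty, Finset.sum_empty, nsq_self_one]
  | insert r S hr ih =>
    rw [Finset.prod_insert hr, Finset.sum_insert hr,
      nsq_mul h (hS r (Finset.mem_insert_self _ _)), ih fun s hs => hS s (Finset.mem_insert_of_mem hs)]
    intro h'
    obtain ⟨s, hs, hd⟩ := (h.pr.dvd_finsetProd_iff _).1 h'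
    exact hS s (Finset.mem_insert_of_mem hs) hd

/-- the Laplacian as a function on all pairs -/
noncomputable def AM (D : GaussianInt) (i j : GaussianInt) : ZMod 2 :=
  if i = j then ∑ l ∈ (PD D).erase i, nsq i l else nsq i j

theorem AM_sum {D : GaussianInt} (c : GaussianInt → ZMod 2) {i : GaussianInt} (hi : i ∈ PD D) :
    ∑ r ∈ PD D, AM D i r * c r = ∑ r ∈ (PD D).erase i, nsq i r * (c r + c i) := by
  rw [← Finset.add_sum_erase _ _ hi]
  have h1 : AM D i i = ∑ l ∈ (PD D).erase i, nsq i l := by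
    unfold AM
    rw [if_pos rfl]
  have h2 : ∀ r ∈ (PD D).erase i, AM D i r * c r = nsq i r * c r := by
    intro r hr
    unfold AM
    rw [if_neg (Finset.mem_erase.1 hr).1.symm]
  rw [h1, Finset.sum_mul, Finset.sum_congr rfl h2, ← Finset.sum_add_distrib]
  refine Finset.sum_congr rfl fun r _ => ?_
  ring

theorem pd_split {D ρ d d' : GaussianInt} (hD : PS D)
    (he : D * ρ = d * d') {r : GaussianInt} (hr : r ∈ PD D) :
    PP r ∧ (r ∣ d ∨ r ∣ d') := by
  obtain ⟨h1, h2⟩ := (mem_PD hD.ne).1 hr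
  refine ⟨h1, h1.pr.dvd_or_dvd ?_⟩
  rw [← he]
  exact h2.mul_right _

theorem ps_mul {D ρ : GaussianInt} (hD : PS D) (hρ : PP ρ) (hρD : ¬ ρ ∣ D) : PS (D * ρ) := by
  refine ⟨prim_mul hD.prm hρ.prm, ?_⟩
  have hc : IsRelPrime D ρ := by
    have := ((hρ.pr.irreducible.coprime_iff_not_dvd).2 hρD).symm
    exact this.isRelPrime
  exact squarefree_mul_iff.2 ⟨hc, hD.sqf, hρ.pr.irreducible.squarefree⟩

/-- the part of the decomposition without the new prime is trivial -/
theorem trivial_side {D ρ : GaussianInt} (hD : PS D) (hρ : PP ρ) (hρD : ¬ ρ ∣ D)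
    (hns : Ns (PD D) (AM D) (fun p => nsq ρ p)) {d d' : GaussianInt} (hd : prim d) (hd' : prim d')
    (he : D * ρ = d * d') (hk : ∀ π ∈ PD d, qr π d' = 1) (hk' : ∀ π ∈ PD d', qr π d = 1)
    (hρd : ρ ∣ d') : d = 1 := by
  have hps := ps_mul hD hρ hρD
  have hpsd : PS d := hps.of_dvd hd ⟨d', he⟩
  have hpsd' : PS d' := hps.of_dvd hd' ⟨d, by rw [he, mul_comm]⟩
  -- no common prime
  have hdis : ∀ r : GaussianInt, PP r → r ∣ d → ¬ r ∣ d' := by
    intro r hr h1 h2
    have h3 : r * r ∣ D * ρ := by rw [he]; exact mul_dvd_mul h1 h2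
    exact hr.pr.not_isUnit (hps.sqf r h3)
  have hρd0 : ¬ ρ ∣ d := fun h => hdis ρ hρ h hρd
  set c : GaussianInt → ZMod 2 := fun r => if r ∣ d then 1 else 0 with hc
  have h0 := hns c ?_
  · -- no prime divides `d`
    have h1 : PD d = ∅ := by
      rw [Finset.eq_empty_iff_forall_notMem]
      intro r hr
      obtain ⟨h2, h3⟩ := (mem_PD hpsd.ne).1 hr
      have h4 : r ∈ PD D := by
        rw [mem_PD hD.ne]
        refine ⟨h2, ?_⟩
        have h5 : r ∣ D * ρ := by rw [he]; exact h3.mul_right _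
        rcases h2.pr.dvd_or_dvd h5 with h6 | h6
        · exact h6
        · exact absurd h3 (by rw [h2.eq_of_dvd hρ h6]; exact hρd0)
      have h5 := h0 r h4
      rw [hc] at h5
      simp only [if_pos h3] at h5
      exact one_ne_zero h5
    have h2 := hpsd.prod
    rw [h1, Finset.prod_empty] at h2
    exact h2.symm
  · intro p hp
    obtain ⟨hpP, hpD⟩ := (mem_PD hD.ne).1 hp
    have hpρ : p ≠ ρ := fun h => hρD (h ▸ hpD)
    rw [AM_sum c hp]
    show _ + nsq ρ p * c p = 0
    rcases (pd_split hD he hp).2 with h1 | h1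
    · -- `p ∣ d`
      have hcp : c p = 1 := by rw [hc]; simp only [if_pos h1]
      have e1 : ∑ r ∈ (PD D).erase p, nsq p r * (c r + c p) = ∑ r ∈ (PD d').erase ρ, nsq p r := by
        have h2 : (PD d').erase ρ = ((PD D).erase p).filter fun r => r ∣ d' := by
          ext r
          rw [Finset.mem_erase, Finset.mem_filter, Finset.mem_erase, mem_PD hpsd'.ne, mem_PD hD.ne]
          constructor
          · rintro ⟨h3, h4, h5⟩
            refine ⟨⟨?_, h4, ?_⟩, h5⟩
            · rintro rfl
              exact hdis r h4 h1 h5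
            · have h6 : r ∣ D * ρ := by rw [he]; exact h5.mul_left _
              rcases h4.pr.dvd_or_dvd h6 with h7 | h7
              · exact h7
              · exact absurd (h4.eq_of_dvd hρ h7) h3
          · rintro ⟨⟨h3, h4, h5⟩, h6⟩
            refine ⟨?_, h4, h6⟩
            rintro rfl
            exact hρD h5
        rw [h2, Finset.sum_filter]
        refine Finset.sum_congr rfl fun r hr => ?_
        obtain ⟨h3, h4⟩ := pd_split hD he (Finset.mem_of_mem_erase hr)
        rw [hcp]
        by_cases h5 : r ∣ d'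
        · have h6 : ¬ r ∣ d := fun h6 => hdis r h3 h6 h5
          rw [if_pos h5, hc]
          simp only [if_neg h6]
          rw [zero_add, mul_one]
        · have h6 : r ∣ d := h4.resolve_right h5
          rw [if_neg h5, hc]
          simp only [if_pos h6]
          have : (1 : ZMod 2) + 1 = 0 := by decide
          rw [this, mul_zero]
      have hpd' : ¬ p ∣ d' := hdis p hpP h1
      have e2 : nsq p d' = ∑ r ∈ PD d', nsq p r := by
        rw [← nsq_prod hpP (PD d'), hpsd'.prod]
        intro r hr h3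
        exact hpd' (h3.trans ((mem_PD hpsd'.ne).1 hr).2)
      have e3 : nsq p d' = 0 := (nsq_zero hpd').2 (hk p ((mem_PD hpsd.ne).2 ⟨hpP, h1⟩))
      have hρm : ρ ∈ PD d' := (mem_PD hpsd'.ne).2 ⟨hρ, hρd⟩
      rw [e1, hcp, mul_one, ← nsq_rec hpP hρ hpρ, Finset.sum_erase_add _ _ hρm, ← e2, e3]
    · -- `p ∣ d'`
      have hpd : ¬ p ∣ d := fun h => hdis p hpP h h1
      have hcp : c p = 0 := by rw [hc]; simp only [if_neg hpd]
      have e1 : ∑ r ∈ (PD D).erase p, nsq p r * (c r + c p) = ∑ r ∈ PD d, nsq p r := by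
        have h2 : PD d = ((PD D).erase p).filter fun r => r ∣ d := by
          ext r
          rw [Finset.mem_filter, Finset.mem_erase, mem_PD hpsd.ne, mem_PD hD.ne]
          constructor
          · rintro ⟨h4, h5⟩
            refine ⟨⟨?_, h4, ?_⟩, h5⟩
            · rintro rfl
              exact hpd h5
            · have h6 : r ∣ D * ρ := by rw [he]; exact h5.mul_right _
              rcases h4.pr.dvd_or_dvd h6 with h7 | h7
              · exact h7
              · exact absurd h5 (by rw [h4.eq_of_dvd hρ h7]; exact hρd0)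
          · rintro ⟨⟨h3, h4, h5⟩, h6⟩
            exact ⟨h4, h6⟩
        rw [h2, Finset.sum_filter]
        refine Finset.sum_congr rfl fun r hr => ?_
        rw [hcp, add_zero]
        by_cases h5 : r ∣ d
        · rw [if_pos h5, hc]
          simp only [if_pos h5]
          rw [mul_one]
        · rw [if_neg h5, hc]
          simp only [if_neg h5]
          rw [mul_zero]
      have e2 : nsq p d = ∑ r ∈ PD d, nsq p r := by
        rw [← nsq_prod hpP (PD d), hpsd.prod]
        intro r hr h3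
        exact hpd (h3.trans ((mem_PD hpsd.ne).1 hr).2)
      have e3 : nsq p d = 0 := (nsq_zero hpd).2 (hk' p ((mem_PD hpsd'.ne).2 ⟨hpP, h1⟩))
      rw [e1, hcp, mul_zero, add_zero, ← e2, e3]

/-- **the criterion** -/
theorem good4 {D ρ : GaussianInt} (hD : PS D) (hρ : PP ρ) (hρD : ¬ ρ ∣ D)
    (hn : (D * ρ).norm % 16 = 13) (hns : Ns (PD D) (AM D) (fun p => nsq ρ p)) :
    Good4 (D * ρ) where
  ps := ps_mul hD hρ hρD
  nm := hn
  ker d d' hd hd' he hk hk' := by
    have h1 : ρ ∣ d * d' := ⟨D, by rw [← he, mul_comm]⟩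
    rcases hρ.pr.dvd_or_dvd h1 with h2 | h2
    · right
      exact trivial_side hD hρ hρD hns hd' hd (by rw [he, mul_comm]) hk' hk h2
    · left
      exact trivial_side hD hρ hρD hns hd hd' he hk hk' h2

/-- on a finset or on its type -/
theorem Ns_coe {α : Type*} [DecidableEq α] {k : Type*} [Field k] [Fintype k] (S : Finset α)
    (A : α → α → k) (u : α → k) :
    Ns S A u ↔ Ns (univ : Finset S) (fun p r => A p r) (fun p => u p) := by
  unfold Ns
  constructor
  · intro h c hc p _
    have h1 := h (fun n => if hn : n ∈ S then c ⟨n, hn⟩ else 0) (by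
      intro i hi
      have h2 := hc ⟨i, hi⟩ (Finset.mem_univ _)
      rw [dif_pos hi]
      rw [← h2]
      congr 1
      rw [← Finset.sum_coe_sort S]
      refine Finset.sum_congr rfl fun r _ => ?_
      rw [dif_pos r.2])
    have h3 := h1 p p.2
    rw [dif_pos p.2] at h3
    exact h3
  · intro h c hc p hp
    refine h (fun r => c r) (fun i _ => ?_) ⟨p, hp⟩ (Finset.mem_univ _)
    rw [← hc i i.2]
    congr 1
    exact Finset.sum_coe_sort S fun r => A i r * c r

end Pool.Agent.H93.QT
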