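import Pool.Agent.H93.QT.Cnt

/-!
# The joint law of the residue symbols of a primary prime and of its norm modulo `16`
-/

set_option autoImplicit false
set_option linter.unusedSectionVars false
set_option linter.style.haveILetI false

namespace Pool.Agent.H93.QT

open NumberField Filter Topology Finset Pool.Agent.W401.Cheb
open Pool.Agent.Y715.Gi (ev ev_apply)
open Pool.Agent.Y715.Rec (norm_eq unit_cases)
open Pool.Agent.Y715.Qr (qs)
open Q283.TW (ng)
open Q283.GA (Ind DatC Dat HH KK mem_HH mem_KK exists_dat exists_conj frob_z frob_sq ii ii_unit)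

/-- powers of a primitive root of unity -/
theorem prim_pow_iff {R : Type*} [CommRing R] [IsDomain R] {z : R} {n : ℕ} (hn : 0 < n)
    (h : IsPrimitiveRoot z n) (a b : ℕ) : z ^ a = z ^ b ↔ a % n = b % n := by
  have key : ∀ a, z ^ a = z ^ (a % n) := by
    intro a
    conv_lhs => rw [← Nat.div_add_mod a n, pow_add, pow_mul, h.pow_eq_one, one_pow, one_mul]
  rw [key a, key b]
  constructor
  · intro he
    exact h.pow_inj (Nat.mod_lt _ hn) (Nat.mod_lt _ hn) he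
  · intro he
    rw [he]

theorem ind_of {P : Finset GaussianInt} (hP : ∀ q ∈ P, Pp q) : Ind P :=
  Q283.GA.indep P (fun q hq => (hP q hq).prime)
    (fun q hq r hr hd => pp_eq_of_dvd (hP r hr) (hP q hq) hd)

section
variable {L : Type} [Field L] [NumberField L] [IsGalois ℚ L] {P : Finset GaussianInt}
  (D : DatC L P 2) (hI : Ind P)

theorem zeta_iff (a b : ℕ) : D.ζ ^ a = D.ζ ^ b ↔ a % 16 = b % 16 :=
  prim_pow_iff (by norm_num) D.hζ a b

/-- the automorphisms with exponent `c = 1` modulo `4` fix the imaginary unit -/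
theorem mem_HH_of {c : ℕ} (hc : c % 4 = 1) {g : Gal(L/ℚ)} (h : g • D.ζ = D.ζ ^ c) : g ∈ HH D.Z := by
  rw [mem_HH, D.hZζ, smul_pow', h, ← pow_mul, zeta_iff]
  omega

theorem exp_mod {g : Gal(L/ℚ)} (hg : g ∈ HH D.Z) : ∃ c ∈ ({1, 5, 9, 13} : Finset ℕ),
    g • D.ζ = D.ζ ^ c := by
  obtain ⟨a, ha1, ha⟩ := D.exists_pow g
  have h4 := D.mod_four (by norm_num) hg ha1 ha
  have h5 : a % 16 = 1 ∨ a % 16 = 5 ∨ a % 16 = 9 ∨ a % 16 = 13 := by omega
  rcases h5 with h5 | h5 | h5 | h5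
  · exact ⟨1, by simp, by rw [ha, zeta_iff]; omega⟩
  · exact ⟨5, by simp, by rw [ha, zeta_iff]; omega⟩
  · exact ⟨9, by simp, by rw [ha, zeta_iff]; omega⟩
  · exact ⟨13, by simp, by rw [ha, zeta_iff]; omega⟩

include hI in
/-- an automorphism with given exponent and trivial symbols -/
theorem exists_exp {c : ℕ} (hc : c % 4 = 1) : ∃ g : HH D.Z, (g : Gal(L/ℚ)) • D.ζ = D.ζ ^ c ∧
    (Multiplicative.toAdd (D.Psi hI g)).1 = 0 := by
  obtain ⟨h, hh⟩ := D.surj hI (Multiplicative.ofAdd (0, 1))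
  have h1 : ng h.1 (D.s ii : L) = 1 := by
    have := congrArg (fun x => (Multiplicative.toAdd x).2) hh
    exact this
  obtain ⟨y, hy1, hy⟩ := D.exists_pow h.1
  have hx : (4 : ℤ) ∣ ((c ^ 3 : ℕ) : ℤ) - 1 := by
    have h2 : (c ^ 3) % 4 = 1 := by rw [Nat.pow_mod, hc]
    generalize c ^ 3 = t at h2
    omega
  obtain ⟨n, hn⟩ := Q283.GA.exists_pow_one (x := ((c ^ 3 : ℕ) : ℤ)) (y := (y : ℤ)) hx
    (D.mod_four (by norm_num) h.2 hy1 hy)
    (D.not_eight (by norm_num) (by rw [h1]; decide) hy1 hy) 2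
  have hpow : ∀ n : ℕ, h.1 ^ n • D.ζ = D.ζ ^ y ^ n := by
    intro n
    induction n with
    | zero => rw [pow_zero, pow_zero, pow_one, one_smul]
    | succ n ih => rw [pow_succ, mul_smul, hy, smul_pow', ih, ← pow_mul, pow_succ]
  refine ⟨h ^ n, ?_, ?_⟩
  · rw [Subgroup.coe_pow, hpow, zeta_iff]
    have h2 : (c ^ 3 * y ^ n) % 16 = 1 := by
      have h3 : (16 : ℤ) ∣ ((c ^ 3 * y ^ n : ℕ) : ℤ) - 1 := by
        push_cast
        push_cast at hn
        exact hn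
      generalize c ^ 3 * y ^ n = t at h3 ⊢
      omega
    have h4 : (c ^ 4) % 16 = 1 := by
      have h5 : c % 16 = 1 ∨ c % 16 = 5 ∨ c % 16 = 9 ∨ c % 16 = 13 := by omega
      rw [Nat.pow_mod]
      rcases h5 with h5 | h5 | h5 | h5 <;> rw [h5]
    calc y ^ n % 16 = (c ^ 4 % 16 * (y ^ n % 16)) % 16 := by rw [h4, one_mul, Nat.mod_mod]
      _ = (c ^ 4 * y ^ n) % 16 := by rw [← Nat.mul_mod]
      _ = (c * (c ^ 3 * y ^ n)) % 16 := by congr 1; ring
      _ = (c % 16 * ((c ^ 3 * y ^ n) % 16)) % 16 := by rw [← Nat.mul_mod]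
      _ = c % 16 := by rw [h2, mul_one, Nat.mod_mod]
  · rw [map_pow, hh, ← ofAdd_nsmul]
    simp

/-- the automorphisms with exponent `c` and given symbols -/
def CX (c : ℕ) (Q : (P → ZMod 2) → Prop) : Set Gal(L/ℚ) :=
  {g | g • D.ζ = D.ζ ^ c ∧ ∃ h : g ∈ HH D.Z, Q (Multiplicative.toAdd (D.Psi hI ⟨g, h⟩)).1}

/-- the number of automorphisms does not depend on the exponent -/
theorem card_CX {c : ℕ} (hc : c % 4 = 1) (Q : (P → ZMod 2) → Prop) :
    Nat.card (CX D hI c Q) = Nat.card {g : KK D.ζ // Q (Multiplicative.toAdd (D.Th hI g))} := by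
  obtain ⟨g₀, hg₀, hg₁⟩ := exists_exp D hI hc
  have key : ∀ g : HH D.Z, (Multiplicative.toAdd (D.Psi hI (g * g₀))).1 =
      (Multiplicative.toAdd (D.Psi hI g)).1 := by
    intro g
    rw [map_mul, toAdd_mul, Prod.fst_add, hg₁, add_zero]
  have key2 : ∀ g : HH D.Z, (Multiplicative.toAdd (D.Psi hI (g * g₀⁻¹))).1 =
      (Multiplicative.toAdd (D.Psi hI g)).1 := by
    intro g
    rw [← key (g * g₀⁻¹), inv_mul_cancel_right]
  symm
  refine Nat.card_congr
    { toFun := fun k => ⟨k.1.1 * g₀.1, ?_, ?_⟩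
      invFun := fun g => ⟨⟨g.1 * g₀.1⁻¹, ?_⟩, ?_⟩
      left_inv := ?_
      right_inv := ?_ }
  · show (k.1.1 * g₀.1) • D.ζ = _
    rw [mul_smul, hg₀, smul_pow', mem_KK.1 k.1.2]
  · refine ⟨mul_mem (D.le k.1.2) g₀.2, ?_⟩
    have h1 := key ⟨k.1.1, D.le k.1.2⟩
    have h2 : (⟨k.1.1, D.le k.1.2⟩ * g₀ : HH D.Z) =
      ⟨k.1.1 * g₀.1, mul_mem (D.le k.1.2) g₀.2⟩ := rfl
    rw [h2] at h1
    rw [h1]
    exact k.2
  · rw [mem_KK, mul_smul]
    have h1 : (g₀.1)⁻¹ • D.ζ ^ c = D.ζ := by rw [← hg₀, inv_smul_smul]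
    have h2 : ∀ x : 𝓞 L, x ^ 1 = x := pow_one
    -- `g₀⁻¹ ζ = ζ ^ d`, `c d = 1`
    obtain ⟨d, hd1, hd⟩ := D.exists_pow (g₀.1)⁻¹
    rw [smul_pow', hd, ← pow_mul] at h1
    have h3 := (zeta_iff D (d * c) 1).1 (by rw [h1, pow_one])
    rw [hd, smul_pow', g.2.1, ← pow_mul]
    conv_rhs => rw [← pow_one D.ζ]
    rw [zeta_iff, mul_comm c d]
    exact h3
  · obtain ⟨h, hQ⟩ := g.2.2
    have h1 := key2 ⟨g.1, h⟩
    show Q (Multiplicative.toAdd (D.Psi hI ⟨g.1 * g₀.1⁻¹, _⟩)).1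
    have h2 : (⟨g.1, h⟩ * g₀⁻¹ : HH D.Z) =
      ⟨g.1 * g₀.1⁻¹, mul_mem h (inv_mem g₀.2)⟩ := rfl
    rw [h2] at h1
    rw [h1]
    exact hQ
  · intro k
    apply Subtype.ext
    apply Subtype.ext
    show k.1.1 * g₀.1 * g₀.1⁻¹ = k.1.1
    rw [mul_inv_cancel_right]
  · intro g
    apply Subtype.ext
    show g.1 * g₀.1⁻¹ * g₀.1 = g.1
    rw [inv_mul_cancel_right]

include hI in
theorem card_HH : Nat.card (HH D.Z) = 4 * Nat.card (KK D.ζ) := by
  classical
  have hfin : Finite Gal(L/ℚ) := inferInstance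
  have h1 : ∀ c ∈ ({1, 5, 9, 13} : Finset ℕ), Nat.card {g : HH D.Z // g.1 • D.ζ = D.ζ ^ c} =
      Nat.card (KK D.ζ) := by
    intro c hc
    have hc4 : c % 4 = 1 := by
      simp only [Finset.mem_insert, Finset.mem_singleton] at hc
      omega
    have h2 := card_CX D hI hc4 (fun _ => True)
    have h3 : Nat.card {g : KK D.ζ // True} = Nat.card (KK D.ζ) :=
      Nat.card_congr (Equiv.subtypeUnivEquiv fun _ => trivial)
    rw [h3] at h2
    rw [← h2]
    refine Nat.card_congr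
      { toFun := fun g => ⟨g.1.1, g.2, g.1.2, trivial⟩
        invFun := fun g => ⟨⟨g.1, g.2.2.1⟩, g.2.1⟩
        left_inv := fun _ => rfl
        right_inv := fun _ => rfl }
  have h4 : Nat.card (HH D.Z) = ∑ c ∈ ({1, 5, 9, 13} : Finset ℕ),
      Nat.card {g : HH D.Z // g.1 • D.ζ = D.ζ ^ c} := by
    rw [← Finset.sum_coe_sort, ← Nat.card_sigma]
    symm
    refine Nat.card_congr (Equiv.ofBijective (fun x => x.2.1) ⟨?_, ?_⟩)
    · rintro ⟨⟨c, hc⟩, g, hg⟩ ⟨⟨c', hc'⟩, g', hg'⟩ he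
      have he' : g = g' := he
      subst he'
      have h5 : c % 16 = c' % 16 := (zeta_iff D _ _).1 (hg.symm.trans hg')
      have h6 : c = c' := by
        simp only [Finset.mem_insert, Finset.mem_singleton] at hc hc'
        omega
      subst h6
      rfl
    · intro g
      obtain ⟨c, hc, h⟩ := exp_mod D g.2
      exact ⟨⟨⟨c, hc⟩, g, h⟩, rfl⟩
  rw [h4, Finset.sum_congr rfl h1]
  simp

variable {p : ℕ} [hp : Fact p.Prime]

/-- Frobenius and the root of unity -/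
theorem frob_class {φ : 𝓞 L →+* AlgebraicClosure (ZMod p)} {g : Gal(L/ℚ)}
    (hφ : HasFrob p φ g) (h3 : p ≠ 2) (c : ℕ) : g • D.ζ = D.ζ ^ c ↔ p % 16 = c % 16 := by
  have hpr := D.prim_im h3 φ
  have hfr := hφ D.ζ
  obtain ⟨a, ha1, ha⟩ := D.exists_pow g
  rw [ha, map_pow] at hfr
  have h1 : a % 16 = p % 16 := (prim_pow_iff (by norm_num) hpr a p).1 hfr
  rw [ha, zeta_iff, h1]

end

section
variable {L : Type} [Field L] [NumberField L] [IsGalois ℚ L] {P : Finset GaussianInt}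
  (D : DatC L P 2) (hI : Ind P)

include hI in
theorem prod_pos : 0 < 2 * ∏ q ∈ P, (q.norm).natAbs := by
  have : 0 < ∏ q ∈ P, (q.norm).natAbs := by
    apply Finset.prod_pos
    intro q hq
    have h1 : q.norm ≠ 0 := fun h => hI.n0 q hq (GaussianInt.norm_eq_zero.1 h)
    omega
  omega

include hI in
/-- the density for one class modulo `16` -/
theorem dens_class {c : ℕ} (hc : c % 4 = 1) (Q : (P → ZMod 2) → Prop) (T : GaussianInt → Prop)
    (hT : ∀ p : ℕ, p.Prime → p ≠ 2 → ∀ π, Pp π → π.norm = p → π ∉ P →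
      (T π ↔ p % 16 = c % 16 ∧ Q (fun q : P => qs π q))) :
    Tendsto (fun X : ℕ => (NT T X : ℝ) / (Nat.primeCounting X : ℝ)) atTop
      (𝓝 (2 * (Nat.card (KK D.ζ) : ℝ) / (Nat.card Gal(L/ℚ) : ℝ) *
        ((Nat.card {x : P → ZMod 2 // Q x} : ℝ) / 2 ^ P.card))) := by
  apply NT_tendsto
  have h1 := dens_one D.hZ (CX D hI c Q) T (2 * ∏ q ∈ P, (q.norm).natAbs) (prod_pos hI) (by
    intro p hp hpD φ g hφ
    have h3 : p ≠ 2 := by
      rintro rfl
      exact hpD (dvd_mul_right _ _)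
    have hpP : ∀ q ∈ P, ¬ p ∣ (q.norm).natAbs := by
      intro q hq hd
      exact hpD ((hd.trans (Finset.dvd_prod_of_mem
        (fun q : GaussianInt => (q.norm).natAbs) hq)).mul_left _)
    have hdiv : ∀ π : GaussianInt, π.norm = p → ∀ q ∈ P, ¬ π ∣ q := by
      rintro π hn q hq ⟨c, rfl⟩
      apply hpP _ hq
      rw [Zsqrtd.norm_mul, hn, Int.natAbs_mul, Int.natAbs_natCast]
      exact dvd_mul_right _ _
    have key : ∀ (π : GaussianInt), Pp π → π.norm = p → φ (ev D.Z D.hZ π) = 0 →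
        ∀ hg : g ∈ HH D.Z, (T π ↔ g • D.ζ = D.ζ ^ c ∧
          Q (Multiplicative.toAdd (D.Psi hI ⟨g, hg⟩)).1) := by
      intro π h4 h5 h6 hg
      have hnP : π ∉ P := fun h => hdiv π h5 π h (dvd_refl _)
      rw [hT p hp.out h3 π h4 h5 hnP, frob_class D hφ h3]
      have e1 : (fun q : P => qs π q) = fun q : P => ng g (D.s (q : GaussianInt) : L) := by
        funext q
        exact frob_sq D.hZ hφ h3 hg h4.prime h6 (D.hs q q.2) (hdiv π h5 q q.2)
      rw [e1]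
      exact Iff.rfl
    constructor
    · rintro ⟨h0, hg, hQ⟩
      have hp4 : p % 4 = 1 := by
        have h4 := (frob_class D hφ h3 c).1 h0
        omega
      obtain ⟨π, h4, h5, h6⟩ : ∃ π, Pp π ∧ π.norm = p ∧ φ (ev D.Z D.hZ π) = 0 :=
        exists_above D.hZ hp4
      exact ⟨π, h4, h5, h6, (key π h4 h5 h6 hg).2 ⟨h0, hQ⟩⟩
    · rintro ⟨π, h4, h5, h6, h7⟩
      have hnP : π ∉ P := fun h => hdiv π h5 π h (dvd_refl _)
      have hg : g ∈ HH D.Z := by
        have h8 := ((hT p hp.out h3 π h4 h5 hnP).1 h7).1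
        rw [mem_HH, frob_z D.hZ hφ h3]
        omega
      obtain ⟨h8, h9⟩ := (key π h4 h5 h6 hg).1 h7
      exact ⟨h8, hg, h9⟩)
  have h3 := D.ratio (by norm_num) hI Q
  have hHpos : (0 : ℝ) < Nat.card (KK D.ζ) := by
    have := Nat.card_pos (α := KK D.ζ)
    exact_mod_cast this
  have h4 : (Nat.card {g : KK D.ζ // Q (Multiplicative.toAdd (D.Th hI g))} : ℝ) =
      (Nat.card {x : P → ZMod 2 // Q x} : ℝ) / 2 ^ P.card * (Nat.card (KK D.ζ) : ℝ) := by
    rw [← h3]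
    field_simp
  rw [card_CX D hI hc, h4] at h1
  convert h1 using 2
  ring

include D hI in
/-- the number of all primary primes -/
theorem dens_all : Tendsto (fun X : ℕ => (NT (fun _ => True) X : ℝ) / (Nat.primeCounting X : ℝ)) atTop
      (𝓝 (8 * (Nat.card (KK D.ζ) : ℝ) / (Nat.card Gal(L/ℚ) : ℝ))) := by
  apply NT_tendsto
  have h1 := dens_one D.hZ (HH D.Z : Set Gal(L/ℚ)) (fun _ => True) 2 (by norm_num) (by
    intro p hp hpD φ g hφ
    have h3 : p ≠ 2 := by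
      rintro rfl
      exact hpD (dvd_refl _)
    rw [SetLike.mem_coe, mem_HH, frob_z D.hZ hφ h3]
    constructor
    · intro hp4
      obtain ⟨π, h4, h5, h6⟩ : ∃ π, Pp π ∧ π.norm = p ∧ φ (ev D.Z D.hZ π) = 0 :=
        exists_above D.hZ hp4
      exact ⟨π, h4, h5, h6, trivial⟩
    · rintro ⟨π, h4, h5, h6, -⟩
      obtain ⟨h7, h8⟩ := h4.prm
      rw [norm_eq] at h5
      have h9 : π.im ^ 2 % 4 = 0 := by
        obtain ⟨t, ht⟩ : ∃ t, π.im = 2 * t := ⟨π.im / 2, by omega⟩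
        rw [ht]
        have : (2 * t) ^ 2 = 4 * t ^ 2 := by ring
        omega
      have h10 : π.re ^ 2 % 4 = 1 := by
        obtain ⟨t, ht⟩ : ∃ t, π.re = 2 * t + 1 := ⟨π.re / 2, by omega⟩
        rw [ht]
        have : (2 * t + 1) ^ 2 = 4 * (t ^ 2 + t) + 1 := by ring
        omega
      omega)
  have h2 : (Nat.card (HH D.Z : Set Gal(L/ℚ)) : ℝ) = 4 * Nat.card (KK D.ζ) := by
    have := card_HH D hI
    exact_mod_cast this
  rw [h2] at h1
  convert h1 using 2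
  ring

end

/-- **The proportion among all primary primes.** -/
theorem density {P : Finset GaussianInt} (hP : ∀ q ∈ P, Pp q) {c : ℕ} (hc : c % 4 = 1)
    (Q : (P → ZMod 2) → Prop) (T : GaussianInt → Prop)
    (hT : ∀ p : ℕ, p.Prime → p ≠ 2 → ∀ π, Pp π → π.norm = p → π ∉ P →
      (T π ↔ p % 16 = c % 16 ∧ Q (fun q : P => qs π q))) :
    Tendsto (fun X : ℕ => (NT T X : ℝ) / (NT (fun _ => True) X : ℝ)) atTop
      (𝓝 ((Nat.card {x : P → ZMod 2 // Q x} : ℝ) / (4 * 2 ^ P.card))) := by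
  have hI := ind_of hP
  obtain ⟨L, hL, hN, hG, ⟨D⟩⟩ := exists_dat P hI.w0 (k := 2) (by norm_num)
  have h1 := dens_class D hI hc Q T hT
  have h2 := dens_all D hI
  have hK : (0 : ℝ) < Nat.card (KK D.ζ) := by
    have := Nat.card_pos (α := KK D.ζ)
    exact_mod_cast this
  have hG : (0 : ℝ) < Nat.card Gal(L/ℚ) := by
    have := Nat.card_pos (α := Gal(L/ℚ))
    exact_mod_cast this
  have hpos : (0 : ℝ) < 8 * (Nat.card (KK D.ζ) : ℝ) / (Nat.card Gal(L/ℚ) : ℝ) := by positivity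
  have h6 := h1.div h2 hpos.ne'
  have h7 : 2 * (Nat.card (KK D.ζ) : ℝ) / (Nat.card Gal(L/ℚ) : ℝ) *
      ((Nat.card {x : P → ZMod 2 // Q x} : ℝ) / 2 ^ P.card) /
        (8 * (Nat.card (KK D.ζ) : ℝ) / (Nat.card Gal(L/ℚ) : ℝ)) =
      (Nat.card {x : P → ZMod 2 // Q x} : ℝ) / (4 * 2 ^ P.card) := by
    field_simp
    ring
  rw [h7] at h6
  refine h6.congr' ?_
  filter_upwards [eventually_ge_atTop 2] with X hX
  have hpc : (Nat.primeCounting X : ℝ) ≠ 0 := by
    have : 0 < Nat.primeCounting X := by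
      have h := Nat.monotone_primeCounting hX
      have h2 : Nat.primeCounting 2 = 1 := by decide
      omega
    positivity
  simp only [Pi.div_apply]
  rw [div_div_div_cancel_right₀ hpc]

end Pool.Agent.H93.QT
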